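import Pool.Agent.Results.MP_8312c9_nt.RandomOrbits
import Pool.Agent.U569.APL.Lin

/-!
# MP_8312c9_nt: the birational section conjecture for twists of cyclic coverings by integers formed from arbitrary sets

The curves are those of the starting results `SectionsOfTwistedCoverings` and `RandomOrbits`: for a curve
`D : b y ^ n = ∏ k, g k (z)` over `ℚ`, the `g k` of degrees divisible by `n`, pairwise coprime, a polynomial `h` coprime to
the `g k` (`Admissible`), an integer `a` and `m ≥ 2`, `m ∣ deg h`,

  `C a : b y ^ n = ∏ k, g k (z)`, `a x ^ m = h (z)`.

`Good n b g h a` (starting file `RandomOrbits`): for all `m ≥ 2` dividing `deg h`, every section of `Gal(Ω/F) → G_ℚ`, `F` the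
function field of `C a`, of a covering of it or of a variety with a dominant map to it, which is geometric over the
completions at the finite places, has a persistent class; and if `n = 2`, every persistent class is the class of an integral
zero of `h`, and for some product `f` of some of the `g k` the curves `f(α) y² = f(z)`, `h(α) = 0`, are elliptic curves
with finitely many rational points and a Tate-Shafarevich group of finite exponent, then every such section (for `F`
algebraic over `ℚ(z)`) arises from exactly one rational point, and `x = 0` there.

Let a sequence (`j = 0, 1, 2, …`) of families of vectors in `ℤ ^ ι`, `|ι| = R`, be given. The vectors of the `j`-th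
family are `c₀ + y`, `c₀` an arbitrary integral vector (depending on `j`, of any size) and `y` one of the following vectors
(represented by `0, …, q - 1`):

* `y` in any family of vectors modulo some `q` (depending on `j`), whose nontrivial Fourier coefficients are at most
  `1 / (Z (42 + 3 log q) ^ R)`, where `Z → ∞`, `Z ≤ q`;
* `β(x, z) + u(x) + w(z)` modulo a prime `P → ∞`, where `β : k ^ m × k ^ n → k ^ R` is bilinear, the nontrivial
  combinations of its coordinates have rank at least `ρ`, `x` and `z` are in ARBITRARY sets `E` and `F` with
  `|E| |F| ≥ P ^ (m + n - ρ + δ)`, `u` and `w` are arbitrary functions (for `δ > 0` fixed);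
* the same for `β(x, z) = x z`, `x` and `z` in ARBITRARY subsets of the field of `P ^ R` elements,
  `|E| |F| ≥ P ^ (R + δ)`;
* polynomials in several variables of degree at most `P ^ (δ / 4)`, all nontrivial combinations of which have a monomial
  with at least two variables, plus arbitrary functions of the single variables, on products of ARBITRARY sets of at
  least `P ^ (1 / 2 + δ)` residues;
* polynomials in one variable of degree at most `P ^ (δ / 4)`, no nontrivial combination of which is constant, on any
  subgroup of the multiplicative group modulo `P` with at least `P ^ (1 / 2 + δ)` elements.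

**Theorem.** There are exceptions `E j`, `|E j| = o(size)`, such that for ALL admissible `(n, b, g, h)` and ALL linear forms
`λ ≠ 0` with integral coefficients, for large `j` and all vectors `c` of the `j`-th family outside of `E j` the integer
`a = λ(c)` is `Good` for `(n, b, g, h)`; and for large `j` and all `c` outside of `E j` there are no sections at all
(`NoSections`) for the curves `y² = (z² + 51) (z² - 1)`, `a x ^ m = (z² + 1) (z² - 17) (z² + 17)`, `m = 2, 3, 6`, which have
points over `ℝ` and over all `ℚ_p` (starting file).

New: the families of integers `a`. The exceptional sets are pronull by the starting results; few members of the families are in such a set by the theorem of the starting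
library `N384.VF` on vectors of residues; the estimates of the Fourier coefficients on arbitrary sets are in `U569/APL`.
-/

set_option autoImplicit false

namespace Pool.Agent.Results.MP_8312c9_nt.ArbitrarySets

open Polynomial Filter Pool.Agent.R925.FD Pool.Agent.TH954 Pool.Agent.TH942
open Pool.Agent.N676.OR (countable_poly)
open Pool.Agent.Results.MP_8312c9_nt.SectionsOfTwistedCoverings (Admissible NoSections)
open Pool.Agent.Results.MP_8312c9_nt.RandomOrbits (Good adm_ex)
open Pool.Agent.U569.APL

/-- **Sections for the twists by integers formed from arbitrary sets.** -/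
theorem result (ι : Type) [Fintype ι] :
    (∀ (τ : ℕ → Type) (s : ∀ j, Finset (τ j)) (v : ∀ j, τ j → ι → ℤ), FlatFamilies s v →
      ∃ E : ∀ j, Finset (τ j), Small s E ∧
        (∀ (r n : ℕ) (b : ℤ) (g : Fin r → ℤ[X]) (h : ℤ[X]), Admissible n b g h → ∀ lam : ι → ℤ, lam ≠ 0 →
          Outside s E v fun c => Good n b g h (∑ i, lam i * c i)) ∧
        ∀ lam : ι → ℤ, lam ≠ 0 → Outside s E v fun c => ∀ m : ℕ, 2 ≤ m → m ∣ exh.natDegree →
          NoSections 2 m 1 (∑ i, lam i * c i) exg exh) ∧
    Examples ι := by
  classical
  refine ⟨fun τ s v hs => ?_, examples _⟩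
  have hcp := countable_poly
  obtain ⟨E, hE, h1⟩ := flat_linear hs
    (fun D : Σ r : ℕ, ℕ × ℤ × (Fin r → ℤ[X]) × ℤ[X] => Admissible D.2.1 D.2.2.1 D.2.2.2.1 D.2.2.2.2)
    (fun D a => Good D.2.1 D.2.2.1 D.2.2.2.1 D.2.2.2.2 a)
    (fun D hA lam hlam => Pool.Agent.Results.MP_8312c9_nt.RandomOrbits.result.1 D.1 D.2.1 D.2.2.1 D.2.2.2.1 D.2.2.2.2 hA ι
      lam hlam)
  have h2 : ∀ (r n : ℕ) (b : ℤ) (g : Fin r → ℤ[X]) (h : ℤ[X]), Admissible n b g h → ∀ lam : ι → ℤ, lam ≠ 0 →
      Outside s E v fun c => Good n b g h (∑ i, lam i * c i) :=
    fun r n b g h hA lam hlam => h1 ⟨r, n, b, g, h⟩ hA lam hlam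
  refine ⟨E, hE, h2, fun lam hlam => ?_⟩
  filter_upwards [h2 2 2 1 exg exh adm_ex lam hlam] with j hj i hi hi2
  intro m hm hmh F Ω B _ _ _ _ _ _ _ _ _ _ z x y hz hy hx ⟨s', hs'⟩
  obtain ⟨δ, h3, -, h4⟩ := (hj i hi hi2).1 m hm hmh F Ω B z x y hz hy hx s' hs'
  exact ex_not_persistent δ (h3.1 0) h4

end Pool.Agent.Results.MP_8312c9_nt.ArbitrarySets
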