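import Pool.Agent.U36.BA.Fin

/-!
# Birationally adelic sections over all number fields come from rational points

Let `K` be a number field, `F` the function field of a curve over `K`, `s` a section of the map from
the absolute Galois group of `F` to that of `K`, and `t ∈ F` not constant.  By the theorem of
Koenigsmann `s` is given by a place `p v` of the algebraic closure of `F` over every completion `K_v`,
that is, by a `K_v`-rational point of the curve.  Let `C` be *any* set of `[K : ℚ]` elements of `K`.
We prove that the following are equivalent:

* the values `t_v` of `t` at the `p v` are finite and bounded away from `C ∪ {∞}`: there is `N` with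
  `|v(t_v - c)| ≤ N` for all finite places `v` and all `c ∈ C` (for instance, if `t_v ∉ C ∪ {∞}` for
  all `v` and `t_v - c` is a unit for almost all `v`);
* `s` comes from exactly one rational point, and the value of `t` at this point is an element `y` of
  `K` outside `C`; then all `t_v` are `y`.

More generally `ℚ` may be replaced by a subfield `k` of `K` whose ring of integers has finitely many
units, that is, by an imaginary quadratic field contained in `K`, and then any `[K : k]` elements of
`K` are sufficient.  For totally real fields and for imaginary quadratic fields it is a theorem of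
Stix that birationally adelic sections come from rational points.

Proof.  By Kummer theory for the fixed field of `s` the families `(t_v - c)_v`, `c ∈ C`, are global
modulo `n`-th powers for all `n`.  As the valuations are bounded almost all of them are `0`, and by
the finiteness of the class group and of the residue rings there are `b_{c,j} ∈ K` with the
valuations of `t_v - c` which tend to `t_v - c` uniformly in `v`.  The quotients `b_{c,j} / b_{c,0}`
are units, so, for infinitely many `j`, the norms of the `b_{c,j}` to `k` are elements `ρ_c` which do
not depend on `j`.  Let `y_j = b_{c₀,j} + c₀`, so that `y_j` tends to `t_v` and the norm of `y_j - c`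
tends to `ρ_c` at all places of `k`.  By the valuative criterion, every element `y` of `K` is
integral over the norms of the `y - c`, `c ∈ C`, by one polynomial for all `y`: if `σ(y)` has a pole
for some embeddings `σ`, then for every `c` one of the other `σ(y)` tends to `σ(c)`, and there are
not enough `σ`.  Hence all the `t_v` are roots of one monic polynomial `P` over `K`.  So the function
`P(t)` vanishes at all the local points, and by a theorem of the starting library the section comes
from exactly one rational point.
-/

set_option autoImplicit false

open IsDedekindDomain NumberField WithZero Pool.Agent.TH954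

namespace Pool.Agent.Results.MP_8312c9_nt.BirationallyAdelicSections

/-- The function `t` has at the place `p v` a (finite) value in the completion `K_v`, for every finite
place `v`, and for every `c ∈ C` the valuations of these values minus `c` are bounded. -/
def BoundedAway {K F Ω : Type} [Field K] [NumberField K] [Field F] [Field Ω] [Algebra F Ω]
    [Algebra K Ω]
    (p : ∀ v : HeightOneSpectrum (𝓞 K), Plc K Ω (AlgebraicClosure (v.adicCompletion K)))
    (t : F) (C : Finset K) : Prop :=
  ∃ N : ℕ, ∀ v : HeightOneSpectrum (𝓞 K), ∃ x : v.adicCompletion K,
    (p v).val (algebraMap F Ω t)
      (algebraMap (v.adicCompletion K) (AlgebraicClosure (v.adicCompletion K)) x) ∧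
    ∀ c ∈ C, exp (-(N : ℤ)) ≤ Valued.v (x - algebraMap K (v.adicCompletion K) c) ∧
      Valued.v (x - algebraMap K (v.adicCompletion K) c) ≤ exp (N : ℤ)

/-- The criterion for the number field `K` and the finite set `C`: let `F` be the function field of a
curve over `K`, `Ω` and `B` algebraic closures of `F` and `K`, `s` a section of the map from
`Gal(Ω/F)` to `Gal(B/K)` and `t ∈ F` transcendental over `K`. Then `s` is given by places over all the
completions of `K` at finite places, and for all such places `p v` the function `t` is bounded away
from `C` and `∞` at the `p v` if and only if `s` comes from exactly one rational point and `t` has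
there and at all the `p v` the same value `y ∈ K`, which is not in `C`. -/
def Criterion (K : Type) [Field K] [NumberField K] (C : Finset K) : Prop :=
  ∀ (F Ω B : Type) [Field F] [Field Ω] [Field B] [Algebra K F] [Algebra F Ω] [Algebra K Ω]
    [Algebra K B] [IsScalarTower K F Ω] [IsAlgClosure F Ω] [IsAlgClosure K B]
    (s : GalSection K F Ω B) (t : F), Transcendental K t →
    Algebra.IsAlgebraic (IntermediateField.adjoin K {t}) F →
    (∃ p : ∀ v : HeightOneSpectrum (𝓞 K), Plc K Ω (AlgebraicClosure (v.adicCompletion K)),
      ∀ v, s.GivenBy (v.adicCompletion K) (p v)) ∧
    ∀ p : ∀ v : HeightOneSpectrum (𝓞 K), Plc K Ω (AlgebraicClosure (v.adicCompletion K)),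
      (∀ v, s.GivenBy (v.adicCompletion K) (p v)) →
      (BoundedAway p t C ↔ ∃ O : ValuationSubring F, s.ArisesFrom O ∧
        (∀ O', s.ArisesFrom O' → O' = O) ∧ ∃ y : K, y ∉ C ∧
          O.valuation (t - algebraMap K F y) < 1 ∧
          ∀ v : HeightOneSpectrum (𝓞 K), (p v).val (algebraMap F Ω t)
            (algebraMap K (AlgebraicClosure (v.adicCompletion K)) y))

theorem criterion (k K : Type) [Field k] [NumberField k] [Field K] [NumberField K] [Algebra k K]
    (hk : Finite (𝓞 k)ˣ) (C : Finset K) (hC : Module.finrank k K ≤ C.card) : Criterion K C := by
  intro F Ω B _ _ _ _ _ _ _ _ _ _ s t ht hF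
  refine ⟨?_, fun p hp => Pool.Agent.U36.BA.bounded_iff k C hC s t ht hF p hp⟩
  choose p hp using fun v : HeightOneSpectrum (𝓞 K) =>
    Pool.Agent.N890.KO.koenigsmann K v K F Ω B s
  exact ⟨p, hp⟩

theorem finite_units_rat : Finite (𝓞 ℚ)ˣ :=
  Finite.of_equiv ℤˣ (Units.mapEquiv (Rat.ringOfIntegersEquiv : 𝓞 ℚ ≃* ℤ)).symm.toEquiv

/-- Over every number field `K`, and for every set `C` of at least `[K : ℚ]` elements of `K`: a
birational section comes from a rational point at which `t` has a finite value outside `C` if and
only if `t` is bounded away from `C ∪ {∞}` at its local points. If `k` is a subfield with finitely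
many units, then `[K : k]` elements are sufficient. -/
theorem result :
    (∀ (K : Type) [Field K] [NumberField K] (C : Finset K),
      Module.finrank ℚ K ≤ C.card → Criterion K C) ∧
    ∀ (k K : Type) [Field k] [NumberField k] [Field K] [NumberField K] [Algebra k K],
      Finite (𝓞 k)ˣ → ∀ C : Finset K, Module.finrank k K ≤ C.card → Criterion K C :=
  ⟨fun K _ _ C hC => criterion ℚ K finite_units_rat C hC,
    fun k K _ _ _ _ _ hk C hC => criterion k K hk C hC⟩

end Pool.Agent.Results.MP_8312c9_nt.BirationallyAdelicSections
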