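import Pool.Agent.U552.UD.Tw
import Pool.Agent.U552.UD.FairOrd
import Pool.Agent.Results.MP_8312c9_nt.RandomOrbits

/-!
# MP_8312c9_nt: the birational section conjecture for twists of cyclic coverings by the values of all polynomials of degree
# one in some variable along all fair sequences: real polynomials, arbitrary functions of given orders

Let `D : b y ^ n = ∏ k, g k (z)` be a curve over `ℚ`, where the `g k` are polynomials with integral
coefficients, of degrees divisible by `n`, pairwise coprime, and let `h` be a polynomial with integral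
coefficients, coprime to the `g k` (`Admissible`). For an integer `a` and `m ≥ 2`, `m ∣ deg h`, consider
the cyclic covering `C a : b y ^ n = ∏ k, g k (z)`, `a x ^ m = h (z)` of `D`; for different `a` these
are twists of each other. The integer `a` is `Good` (definition of the starting result `RandomOrbits`) if for
all `m ≥ 2` dividing `deg h` every section of `Gal(Ω/F) → G_ℚ`, `F` the function field of `C a`, of a covering
of it or of a variety with a dominant map to it, which is geometric over the completions at the finite places,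
has a persistent class; and if `n = 2`, every persistent class is the class of an integral zero of `h`, and for
some product `f` of some of the `g k` the curves `f(α) y² = f(z)`, `h(α) = 0`, are elliptic curves with finitely
many rational points and a Tate-Shafarevich group of finite exponent, then every such section (for `F`
algebraic over `ℚ(z)`) arises from exactly one rational point, and `x = 0` there.

**Theorem.** (1) Let the sequence `c_{n,0}, c_{n,1}, …`, `n = 0, 1, …`, of infinite integral vectors be `Fair`: for every finite set of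
indices with `s` elements the proportion of the `n < N` with given residues of the `c_{n,l}` modulo `q` is at most
`C q ^ (-s) + o(1)`, where `C` depends on the set of indices only. There is ONE set `E` of natural numbers of density zero, depending on the sequence only, such
that for ALL polynomials `P` of degree one in some variable and ALL families `(n, b, g, h)` the integer
`a = P(c_{t,0}, c_{t,1}, …)` is `Good` for all but finitely many `t` outside `E`; and for all but finitely many `t` outside `E`
there are no sections at all for the curves `y² = (z² + 51) (z² - 1)`, `a x ^ m = (z² + 1) (z² - 17) (z² + 17)`,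
`m = 2, 3, 6`, which have points over `ℝ` and over all `ℚ_p`. Here `P` runs through ALL integral polynomials in finitely many of the coordinates which have degree one in at least one of
their variables; for example `P(c) = λ_0 c_0 + … + λ_k c_k` (a linear form), `P(c) = u c_0 c_1 ^ e_1 ⋯ c_k ^ e_k`, or the
determinant of a matrix whose entries are different coordinates.

(2) `c_{n,l} = ⌊x_l(n)⌋` is fair if the exponential means of all nontrivial rational combinations of the real sequences `x_l`
tend to zero (`UniformlyDistributed`).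

(3) This is so for the values `x_l(n) = P_l(n)` of real polynomials if no nontrivial integral combination of finitely many of
them has only rational coefficients in positive degrees, for example for `x_l(n) = α_l n`, where `1, α_0, α_1, …` are
linearly independent over the rational numbers.

(4) `c_{n,l} = ⌊f_l(n)⌋` is fair for ARBITRARY functions of different orders `γ_l > 0`: for some `d > γ_l` (common for any
finitely many of them) the differences of order `d` of `f_l` have a constant sign and are `n ^ (γ_l - d + o(1))` in absolute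
value. There is no smoothness and no formula; examples are `n ^ γ` with `γ` not an integer, `n ^ j log n`, all functions of
a Hardy field with the same growth, plus arbitrary real polynomials of degree below `d`, and irregular functions.

The starting results: `RandomOrbits` has linear forms for almost all random orbits, `ThinTwistedCoverings` has
monomials and sequences which are exactly uniformly distributed modulo all `q`, in particular generalised polynomials
with nonintegral leading exponents.

Proof. `a` is `Good` if it has exact prime divisors in each of finitely many sets of primes with divergent sums of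
reciprocals (starting library). For a prime `p` in such a set at least the proportion `1 / (4 p)` of the vectors of
residues modulo `p²` satisfies `p ∣ F`, `p² ∤ F` (if `F = A c_l + B` and `p` does not divide `A`, then `c_l` is determined by
`F`, and `A` has few zeros modulo `p`), so the vectors without such a divisor form a pronull set (`Pool.Agent.N24.RW`). Fair
sequences visit a pronull set only at times of density zero, and a diagonal argument gives one set `E`. (2) uses products
of Fejer kernels (`Pool.Agent.U552.UD`), (3) is Weyl's theorem (starting library), (4) is a derivative test of order `d` for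
functions without smoothness (helper828, `Pool.Agent.U828.KD.order_well`).
-/

set_option autoImplicit false

namespace Pool.Agent.Results.MP_8312c9_nt.FairSequences

open Polynomial Filter Topology Pool.Agent.R925.FD Pool.Agent.TH954 Pool.Agent.TH942
open Pool.Agent.N676.OR (Big)
open Pool.Agent.Results.MP_8312c9_nt.SectionsOfTwistedCoverings (Admissible NoSections)
open Pool.Agent.Results.MP_8312c9_nt.RandomOrbits (Good good_of adm_ex)

/-- `S` has density zero. -/
def Null (S : Set ℕ) : Prop :=
  Tendsto (fun N : ℕ => (({n : ℕ | n < N ∧ n ∈ S}.ncard : ℕ) : ℝ) / (N : ℝ)) atTop (𝓝 0)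

/-- For every finite set of indices, with `s` elements, the proportion of the `n < N` with given residues of the
`c n l` modulo `q` is at most `C q ^ (-s) + o(1)`, where `C` depends on the set only. -/
def Fair (c : ℕ → ℕ → ℤ) : Prop :=
  ∀ s : Finset ℕ, ∃ C : ℝ, ∀ q : ℕ, 0 < q → ∀ (a : ℕ → ℤ) (δ : ℝ), 0 < δ → ∃ N₀ : ℕ, ∀ N : ℕ, N₀ ≤ N →
    (({n : ℕ | n < N ∧ ∀ l ∈ s, (q : ℤ) ∣ c n l - a l}.ncard : ℕ) : ℝ) ≤ (C / (q : ℝ) ^ s.card + δ) * N

/-- The exponential means of all nontrivial rational combinations of the sequences `x 0, x 1, …` tend to zero. -/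
def UniformlyDistributed (x : ℕ → ℕ → ℝ) : Prop :=
  ∀ (s : Finset ℕ) (h : ℕ → ℚ), (∃ l ∈ s, h l ≠ 0) →
    Tendsto (fun N : ℕ => (∑ n ∈ Finset.range N,
      Complex.exp (2 * Real.pi * ((∑ l ∈ s, (h l : ℝ) * x l n : ℝ) : ℂ) * Complex.I)) / (N : ℂ)) atTop (𝓝 0)

/-- No nontrivial integral combination of finitely many of the polynomials has only rational coefficients in positive
degrees. -/
def Independent (P : ℕ → Polynomial ℝ) : Prop :=
  ∀ (s : Finset ℕ) (h : ℕ → ℤ), (∃ l ∈ s, h l ≠ 0) →
    ∃ j : ℕ, 1 ≤ j ∧ Irrational (∑ l ∈ s, (h l : ℝ) * (P l).coeff j)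

/-- The differences of order `d` of `f` have a constant sign and are `n ^ (c - d + o(1))` in absolute value. -/
def Order (d : ℕ) (c : ℝ) (f : ℕ → ℝ) : Prop :=
  ∀ ε : ℝ, 0 < ε → ∃ T : ℕ,
    (∀ n : ℕ, T ≤ n → (n : ℝ) ^ (c - d - ε) ≤ (fwdDiff 1)^[d] f n ∧
      (fwdDiff 1)^[d] f n ≤ (n : ℝ) ^ (c - d + ε)) ∨
    (∀ n : ℕ, T ≤ n → (n : ℝ) ^ (c - d - ε) ≤ -(fwdDiff 1)^[d] f n ∧
      -(fwdDiff 1)^[d] f n ≤ (n : ℝ) ^ (c - d + ε))

/-- For every `k` the functions `f_0, …, f_k` have the orders `γ_0, …, γ_k`, with a common order of differences. -/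
def Orders (γ : ℕ → ℝ) (f : ℕ → ℕ → ℝ) : Prop :=
  ∀ k : ℕ, ∃ d : ℕ, 2 ≤ d ∧ ∀ l ≤ k, γ l < d ∧ Order d (γ l) (f l)

theorem fair_main (c : ℕ → ℕ → ℤ) (hc : Fair c) : ∃ E : Set ℕ, Null E ∧ ∀ P : MvPolynomial ℕ ℤ, (∃ l, P.degreeOf l = 1) →
    (∀ (r n : ℕ) (b : ℤ) (g : Fin r → ℤ[X]) (h : ℤ[X]), Admissible n b g h →
      {t : ℕ | t ∉ E ∧ ¬ Good n b g h (MvPolynomial.eval (c t) P)}.Finite) ∧
    {t : ℕ | t ∉ E ∧ ¬ ∀ m : ℕ, 2 ≤ m → m ∣ exh.natDegree →
      NoSections 2 m 1 (MvPolynomial.eval (c t) P) exg exh}.Finite := by
  classical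
  have hcp := Pool.Agent.N676.OR.countable_poly
  obtain ⟨E, hE, hall⟩ := Pool.Agent.U552.UD.Fair.values (𝔇 := Σ r : ℕ, ℕ × ℤ × (Fin r → ℤ[X]) × ℤ[X])
    (fun D a => Admissible D.2.1 D.2.2.1 D.2.2.2.1 D.2.2.2.2 →
      Good D.2.1 D.2.2.1 D.2.2.2.1 D.2.2.2.2 a) (by
    rintro ⟨r, n, b, g, h⟩
    by_cases hA : Admissible n b g h
    · obtain ⟨PP, h1, h2, h3⟩ := good_of hA
      exact ⟨PP, h1, h2, fun a ha _ => h3 a ha⟩
    · exact ⟨∅, Set.finite_empty, fun P hP => absurd hP (Set.notMem_empty _),
        fun a _ hA' => absurd hA' hA⟩) hc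
  have hgen : ∀ P : MvPolynomial ℕ ℤ, (∃ l, P.degreeOf l = 1) →
      ∀ (r n : ℕ) (b : ℤ) (g : Fin r → ℤ[X]) (h : ℤ[X]), Admissible n b g h →
          {t : ℕ | t ∉ E ∧ ¬ Good n b g h (MvPolynomial.eval (c t) P)}.Finite := by
    intro P hP r n b g h hA
    refine (hall P hP ⟨r, n, b, g, h⟩).subset ?_
    rintro t ⟨ht, ht'⟩
    exact ⟨ht, fun hgood => ht' (hgood hA)⟩
  refine ⟨E, hE, fun P hP => ⟨hgen P hP, ?_⟩⟩
  refine (hgen P hP 2 2 1 exg exh adm_ex).subset ?_
  rintro t ⟨ht, ht'⟩
  refine ⟨ht, fun hgood => ht' ?_⟩
  intro m hm hmh F Ω B _ _ _ _ _ _ _ _ _ _ z x y hz hy hx ⟨s, hs⟩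
  obtain ⟨δ, h3, -, h4⟩ := hgood.1 m hm hmh F Ω B z x y hz hy hx s hs
  exact ex_not_persistent δ (h3.1 0) h4

/-- **The birational section conjecture for the twists by the values of polynomials along fair sequences.** -/
theorem result :
    (∀ c : ℕ → ℕ → ℤ, Fair c → ∃ E : Set ℕ, Null E ∧ ∀ P : MvPolynomial ℕ ℤ, (∃ l, P.degreeOf l = 1) →
      (∀ (r n : ℕ) (b : ℤ) (g : Fin r → ℤ[X]) (h : ℤ[X]), Admissible n b g h →
        {t : ℕ | t ∉ E ∧ ¬ Good n b g h (MvPolynomial.eval (c t) P)}.Finite) ∧
      {t : ℕ | t ∉ E ∧ ¬ ∀ m : ℕ, 2 ≤ m → m ∣ exh.natDegree →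
        NoSections 2 m 1 (MvPolynomial.eval (c t) P) exg exh}.Finite) ∧
    (∀ x : ℕ → ℕ → ℝ, UniformlyDistributed x → Fair (fun n l => ⌊x l n⌋)) ∧
    (∀ P : ℕ → Polynomial ℝ, Independent P → UniformlyDistributed (fun l n => (P l).eval (n : ℝ))) ∧
    ∀ (γ : ℕ → ℝ) (f : ℕ → ℕ → ℝ), (∀ l, 0 < γ l) → Function.Injective γ → Orders γ f →
      Fair (fun n l => ⌊f l n⌋) :=
  ⟨fun c hc => fair_main c hc,
    fun _ hx => Pool.Agent.U552.UD.fair_of_weyl hx,
    fun _ hP => Pool.Agent.U552.UD.weylFamily_of_poly hP,
    fun _ _ h0 hinj hf => Pool.Agent.U552.UD.fair_of_orders h0 hinj hf⟩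

end Pool.Agent.Results.MP_8312c9_nt.FairSequences
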