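import Pool.Agent.Results.MP_8312c9_nt.RandomOrbits
import Pool.Agent.U125.NO.Tw

/-!
# The birational section conjecture for twists of cyclic coverings along normal sequences

Let `D : b y ^ n = ∏ k, g k (z)` be a curve over `ℚ`, where the `g k` are polynomials with integral
coefficients, of degrees divisible by `n`, pairwise coprime, and let `h` be a polynomial with integral
coefficients, coprime to the `g k` (`Admissible`). For an integer `a` and `m ≥ 2`, `m ∣ deg h`, consider
the cyclic covering `C a : b y ^ n = ∏ k, g k (z)`, `a x ^ m = h (z)` of `D`; for different `a` these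
are twists of each other. The integer `a` is `Good` (definition of the starting result `RandomOrbits`) if for
all `m ≥ 2` dividing `deg h` every section of `Gal(Ω/F) → G_ℚ`, `F` the function field of `C a`, of a covering
of it or of a variety with a dominant map to it, which is geometric over the completions at the finite places,
has a persistent class; and if `n = 2`, every persistent class is the class of an integral zero of `h`, and for
some product `f` of some of the `g k` the curves `f(α) y² = f(z)`, `h(α) = 0`, are elliptic curves with finitely
many rational points and a Tate-Shafarevich group of finite exponent, then every such section (for `F`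
algebraic over `ℚ(z)`) arises from exactly one rational point, and `x = 0` there.

The starting result treats `a = λ(c_t)` for almost every random orbit `c_0, c_1, …` of a thin group. Here the
sequence of vectors is a given one:

**Theorem.** Let `c_0, c_1, …` be a normal orbit in `ℤ^ι` (`NormalOrbit`): the orbit of an integral vector under a
finite family of integral affine maps along ANY normal sequence of indices, the family being wide (for all `q`
prime to some `q₀` the maps are bijective modulo `q`, and the vector can be moved to at least the proportion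
`ε > 0`, not depending on `q`, of all vectors modulo `q`). There is ONE set `E` of times of density zero such that
for ALL linear forms `λ ≠ 0` and ALL families `(n, b, g, h)` the integer `a = λ(c_t)` is `Good` for all but finitely
many `t` outside `E`; and for all but finitely many `t` outside `E` there are no sections at all for the curves
`y² = (z² + 51) (z² - 1)`, `a x ^ m = (z² + 1) (z² - 17) (z² + 17)`, `m = 2, 3, 6`, which have points
over `ℝ` and over all `ℚ_p`.

Examples: (1) `c_t = (⌊b ^ t ξ_i⌋)_i` for ANY vector `ξ` of real numbers which is normal to the base `b ≥ 2`: so we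
twist the curves by the integers which appear if we write down the digits of ANY normal number; (2) the orbit of
any vector `v ≠ 0` along ANY normal word in matrices which generate the special linear group modulo all `q`
prime to some `q₀` (generators of a thin group); (3) vectors of integers whose digits are chosen from a
restricted set of vectors.

Proof. The exceptional vectors are pronull sets (`RandomOrbits`), and normal orbits visit a pronull set only at
times of density zero (engine `Pool.Agent.U125.NO`); a diagonal argument gives one set `E`.
-/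

set_option autoImplicit false

namespace Pool.Agent.Results.MP_8312c9_nt.NormalSequences

open Polynomial Pool.Agent.R925.FD Pool.Agent.TH954 Pool.Agent.TH942
open Pool.Agent.N676.OR (DensityZero Big)
open Pool.Agent.U125.NO (NormalOrbit Examples examples)
open Pool.Agent.Results.MP_8312c9_nt.SectionsOfTwistedCoverings (Admissible NoSections)
open Pool.Agent.Results.MP_8312c9_nt.RandomOrbits (Good good_of adm_ex)

theorem result :
    (∀ (ι : Type) [Fintype ι] [DecidableEq ι] (c : ℕ → ι → ℤ), NormalOrbit c →
      ∃ E : Set ℕ, DensityZero E ∧ ∀ lam : ι → ℤ, lam ≠ 0 →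
        (∀ (r n : ℕ) (b : ℤ) (g : Fin r → ℤ[X]) (h : ℤ[X]), Admissible n b g h →
          {t : ℕ | t ∉ E ∧ ¬ Good n b g h (∑ i, lam i * c t i)}.Finite) ∧
        {t : ℕ | t ∉ E ∧ ¬ ∀ m : ℕ, 2 ≤ m → m ∣ exh.natDegree →
          NoSections 2 m 1 (∑ i, lam i * c t i) exg exh}.Finite) ∧
    ∀ (ι : Type) [Fintype ι] [DecidableEq ι], Examples ι := by
  classical
  have hcp := Pool.Agent.N676.OR.countable_poly
  refine ⟨fun ι _ _ c hc => ?_, fun ι _ _ => examples ι⟩
  obtain ⟨E, hE, hall⟩ := Pool.Agent.U125.NO.twists (𝔇 := Σ r : ℕ, ℕ × ℤ × (Fin r → ℤ[X]) × ℤ[X])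
    (fun D a => Admissible D.2.1 D.2.2.1 D.2.2.2.1 D.2.2.2.2 →
      Good D.2.1 D.2.2.1 D.2.2.2.1 D.2.2.2.2 a) (by
    rintro ⟨r, n, b, g, h⟩
    by_cases hA : Admissible n b g h
    · obtain ⟨PP, h1, h2, h3⟩ := good_of hA
      exact ⟨PP, h1, h2, fun a ha _ => h3 a ha⟩
    · exact ⟨∅, Set.finite_empty, fun P hP => absurd hP (Set.notMem_empty _),
        fun a _ hA' => absurd hA' hA⟩) hc.avoids
  have hgen : ∀ lam : ι → ℤ, lam ≠ 0 →
      ∀ (r n : ℕ) (b : ℤ) (g : Fin r → ℤ[X]) (h : ℤ[X]), Admissible n b g h →
          {t : ℕ | t ∉ E ∧ ¬ Good n b g h (∑ i, lam i * c t i)}.Finite := by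
    intro lam hlam r n b g h hA
    refine (hall lam hlam ⟨r, n, b, g, h⟩).subset ?_
    rintro t ⟨ht, ht'⟩
    exact ⟨ht, fun hgood => ht' (hgood hA)⟩
  refine ⟨E, hE, fun lam hlam => ⟨hgen lam hlam, ?_⟩⟩
  refine (hgen lam hlam 2 2 1 exg exh adm_ex).subset ?_
  rintro t ⟨ht, ht'⟩
  refine ⟨ht, fun hgood => ht' ?_⟩
  intro m hm hmh F Ω B _ _ _ _ _ _ _ _ _ _ z x y hz hy hx ⟨s, hs⟩
  obtain ⟨δ, h3, -, h4⟩ := hgood.1 m hm hmh F Ω B z x y hz hy hx s hs
  exact ex_not_persistent δ (h3.1 0) h4

end Pool.Agent.Results.MP_8312c9_nt.NormalSequences
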